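import Pool.Agent.N936.TC.Stm

/-!
# Project TC, leaf DISJ
-/

set_option autoImplicit false

namespace Pool.Agent.N28.TC

open Pool.Agent.N936.TC Set Topology

lemma eq_cases {σ : Bool → Q ≃ₜ Q} {X : Type} [TopologicalSpace X] {Φ : Q × Bool × I → X}
    (h : Model σ X Φ) {q q' : Q} {i i' : Bool} {s s' : I} (he : Φ (q, i, s) = Φ (q', i', s')) :
    ((s : ℝ) * (1 - s) = 0 ∧ (s' : ℝ) * (1 - s') = 0) ∨ (i = i' ∧ (s : ℝ) = s') := by
  have key : ∀ (b : Bool) (w : ℝ → ℝ), Continuous w → w 0 = 0 → w 1 = 0 →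
      (if i = b then w s else 0) = (if i' = b then w s' else 0) := by
    intro b w hw h0 h1
    have hc : Continuous (fun p : Q × Bool × I => (if p.2.1 = b then (1 : ℝ) else 0) * w p.2.2) := by
      have hb : Continuous (fun c : Bool => if c = b then (1 : ℝ) else 0) :=
        continuous_of_discreteTopology
      exact (hb.comp (continuous_fst.comp continuous_snd)).mul
        (hw.comp (continuous_subtype_val.comp (continuous_snd.comp continuous_snd)))
    obtain ⟨g, -, hg⟩ := h.fact _ hc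
      (by intro q i j; simp [h0]) (by intro q i j; simp [h0, h1])
    have e1 := hg (q, i, s)
    have e2 := hg (q', i', s')
    rw [he, e2] at e1
    simp only [ite_mul, one_mul, zero_mul] at e1
    exact e1.symm
  have u := fun b => key b (fun x => x * (1 - x)) (by fun_prop) (by simp) (by simp)
  have w := fun b => key b (fun x => x ^ 2 * (1 - x)) (by fun_prop) (by simp) (by simp)
  by_cases hi : i' = i
  · have u1 := u i
    have w1 := w i
    simp only [hi, if_true] at u1 w1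
    by_cases hs : (s : ℝ) * (1 - s) = 0
    · left
      exact ⟨hs, by rw [← u1]; exact hs⟩
    · right
      refine ⟨hi.symm, ?_⟩
      have h2 : ((s : ℝ) - s') * ((s : ℝ) * (1 - s)) = 0 := by
        have e1 : (s : ℝ) ^ 2 * (1 - s) = s * (s * (1 - s)) := by ring
        have e2 : (s' : ℝ) ^ 2 * (1 - s') = s' * (s' * (1 - s')) := by ring
        rw [e1, e2, ← u1] at w1
        rw [sub_mul, w1, sub_self]
      exact sub_eq_zero.mp ((mul_eq_zero.mp h2).resolve_right hs)
  · left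
    have u1 := u i
    have u2 := u i'
    have hi' : ¬ i = i' := fun h => hi h.symm
    simp only [hi, if_true, if_false] at u1
    simp only [hi', if_true, if_false] at u2
    exact ⟨u1, u2.symm⟩

lemma m1_top {i : Bool} {s t : ℝ} (h : M1 i s t) (ht : t = 0 ∨ t = 1) : s = 1 / 4 := by
  cases i
  · rcases h with h | ⟨h1, h2⟩ | ⟨h1, h2, h3⟩ | ⟨h1, h2, h3, h4⟩ <;> rcases ht with ht | ht <;>
      exfalso <;> linarith
  · rcases h with h | ⟨h1, h2⟩ | ⟨h1, h2⟩
    · rcases ht with ht | ht <;> exfalso <;> linarith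
    · exact h1
    · rcases ht with ht | ht <;> exfalso <;> linarith

lemma m1_side {i : Bool} {s t : ℝ} (h : M1 i s t) (hs : s = 0 ∨ s = 1) : t = 1 / 8 ∨ t = 5 / 8 := by
  cases i
  · rcases h with h | ⟨h1, h2⟩ | ⟨h1, h2, h3⟩ | ⟨h1, h2, h3, h4⟩
    · exact Or.inl h
    · exact Or.inr h2
    · rcases hs with hs | hs <;> exfalso <;> linarith
    · rcases hs with hs | hs <;> exfalso <;> linarith
  · rcases h with h | ⟨h1, h2⟩ | ⟨h1, h2⟩
    · exact Or.inr h
    · rcases hs with hs | hs <;> exfalso <;> linarith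
    · exact Or.inl h2

lemma m1_both {i : Bool} {s t : ℝ} (h : M1 i s t) (h' : M1 i (1 - s) (1 - t)) : False := by
  cases i
  · rcases h with h | ⟨h1, h2⟩ | ⟨h1, h2, h3⟩ | ⟨h1, h2, h3, h4⟩ <;>
      rcases h' with k | ⟨k1, k2⟩ | ⟨k1, k2, k3⟩ | ⟨k1, k2, k3, k4⟩ <;> linarith
  · rcases h with h | ⟨h1, h2 | h2⟩ | ⟨h1, h2⟩ <;>
      rcases h' with k | ⟨k1, k2 | k2⟩ | ⟨k1, k2⟩ <;> linarith

theorem t_DISJ : S_DISJ := by
  intro σ X _ Φ h
  rw [Set.disjoint_left]
  rintro z ⟨q, i, s, r, j, t, hM, hz⟩ ⟨q', i', s', r', j', t', hM', hz'⟩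
  rw [hz] at hz'
  have e1 : Φ (q, i, s) = Φ (q', i', s') := congrArg Prod.fst hz'
  have e2 : Φ (r, j, t) = Φ (r', j', t') := congrArg Prod.snd hz'
  have c : ∀ x : ℝ, x * (1 - x) = 0 → x = 0 ∨ x = 1 := by
    intro x hx
    rcases mul_eq_zero.mp hx with hx | hx
    · exact Or.inl hx
    · exact Or.inr (by linarith)
  have c' : ∀ x : ℝ, x * (1 - x) = 0 → 1 - x = 0 ∨ 1 - x = 1 := by
    intro x hx
    rcases c x hx with h | h
    · exact Or.inr (by linarith)
    · exact Or.inl (by linarith)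
  rcases eq_cases h e2 with ⟨h1, h2⟩ | ⟨-, h2⟩
  · have a1 := m1_top hM (c _ h1)
    have a2 := m1_top hM' (c' _ h2)
    rcases eq_cases h e1 with ⟨h3, -⟩ | ⟨-, h3⟩
    · rw [a1] at h3
      norm_num at h3
    · linarith
  · rcases eq_cases h e1 with ⟨h3, h4⟩ | ⟨h3, h4⟩
    · rcases m1_side hM (c _ h3) with a1 | a1 <;> rcases m1_side hM' (c' _ h4) with a2 | a2 <;>
        linarith
    · rw [← h3, ← h2, ← h4] at hM'
      exact m1_both hM hM'

end Pool.Agent.N28.TC
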